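import Pool.Agent.Helper74.LE.GoalsH

set_option autoImplicit false

open LaurentPolynomial Pool.Agent.Helper15.RA Pool.Agent.Helper45.AM Pool.Agent.Helper74.LL

noncomputable section

namespace Pool.Agent.Helper38.LE

open Pool.Agent.Helper74.LE

theorem t (kd1 : KD1) (hwt : Pool.Agent.Helper74.LE.HWT) (hw0 : Pool.Agent.Helper74.LE.HW0) (di2 : DI2)
    (ucl : UCL) (uch : UCH) : Pool.Agent.Helper74.LE.UC := by
  intro S W H _ _ _ X M n a b c x y hId hN0 hN1 hN2 hab hac hbc hx hy hcx hcy hn hlast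
  obtain ⟨hL1, hLpos, hLinv, hL⟩ := hwt S W H X
  obtain ⟨hα1, hαs, hα⟩ := hw0 S W H X
  have hsymm : ∀ i j, X.M i j = X.M j i := fun i j => X.M.symmetric i j
  have hMac : X.M a c ≠ 2 := fun h => hab (X.mat c a b (by rw [hsymm]; exact h) (by rw [hsymm]; exact hbc))
  have hMab : X.M a b ≠ 2 := fun h => hac (X.mat b a c (by rw [hsymm]; exact h) hbc)
  obtain ⟨hwab, -, -, hLaba, -⟩ := hL a b hab
  replace hwab := hwab hMab
  replace hLaba := hLaba hMab
  obtain ⟨-, -, hLba, -⟩ := hL b a hab.symm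
  obtain ⟨hwac, -⟩ := hL a c hac
  replace hwac := hwac hMac
  have hαw := (hα a c hac).1
  have hla := hLpos a
  have hlb := hLpos b
  have hlc := hLpos c
  have hwm : w0 X.cs a c ∈ par X.cs {a, c} := (kd1 S W X.M X.cs a c hac (X.fin a c)).1.1
  have hGe : M < X.L (w0 X.cs a c) → X.Ge (M + 1) (w0 X.cs a c) := by
    intro h
    refine ⟨1, w0 X.cs a c, 1, {a, c}, Or.inr ⟨a, c, rfl⟩, hwm, by simp, by simp, ?_⟩
    rw [hαw]
    exact h
  obtain ⟨u1, u2, u3⟩ := uch S W H X M n a b c x y hId hN0 hN1 hab hac hbc hx hy hcx hcy hn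
  have ul := fun (K β₂ β₃ : ℤ) => ucl S W H X M n K β₂ β₃ a b c x y hId hN0 hN2 hab hac hbc hx hy hcx hcy hn hlast
  have hlaa : X.l a = X.L (X.cs.simple a) := rfl
  have hlbb : X.l b = X.L (X.cs.simple b) := rfl
  have hlcc : X.l c = X.L (X.cs.simple c) := rfl
  rw [← hlaa, ← hlbb] at hwab hLaba
  rw [← hlaa, ← hlbb] at hLba
  rw [← hlaa, ← hlcc] at hwac
  rw [← hlaa] at hla
  rw [← hlbb] at hlb
  rw [← hlcc] at hlc
  refine ⟨?_, ?_, ?_⟩
  · intro h1
    by_cases h2 : 2 * X.l a + X.l b + X.l c + 1 ≤ M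
    · exact u1.mono (by omega)
    · refine ul _ (X.l a + X.l b) (2 * X.l a + X.l b) (hGe (by omega)) (by omega) (by omega)
        ⟨by omega, Or.inl ⟨Or.inr h1, ?_⟩⟩ (by omega) ⟨by omega, Or.inl ⟨Or.inr h1, ?_⟩⟩ (by omega)
      · rw [hLba]; push_cast; ring
      · rw [hLaba]; push_cast; ring
  · intro h1 h2
    rcases le_or_gt (X.l b) (X.l a) with h3 | h3
    · have e1 : max (X.l a : ℤ) (X.l b) = X.l a := max_eq_left (by exact_mod_cast h3)
      rw [e1]
      have h2' : X.l a ≤ M := (le_max_left _ _).trans h2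
      by_cases h4 : X.l a + X.l c + 1 ≤ M
      · exact u1.mono (by omega)
      · exact ul _ (X.l a) (X.l a) (hGe (by omega)) (by omega) (by omega)
          ⟨by omega, Or.inr (Or.inl ⟨hMab, h1, by push_cast; exact e1.symm⟩)⟩ (by omega)
          ⟨by omega, Or.inr (Or.inl ⟨hMab, h1, by push_cast; exact e1.symm⟩)⟩ (by omega)
    · have e1 : max (X.l a : ℤ) (X.l b) = X.l b := max_eq_right (by exact_mod_cast h3.le)
      rw [e1]
      have h2' : X.l b ≤ M := (le_max_right _ _).trans h2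
      rcases lt_trichotomy M (X.l b + X.l c) with h4 | h4 | h4
      · exact u3 h2' h4
      · exact (u2 h4).mono (by omega)
      · exact u1.mono (by omega)
  · intro h1 h2 h3
    obtain ⟨-, h4, -⟩ := di2 S W H X a b hab hMab h2
    have e1 : max (X.l a : ℤ) (X.l b) = X.l a := max_eq_left (by exact_mod_cast h2.le)
    by_cases h5 : 2 * X.l a + X.l c + 1 ≤ M + X.l b
    · exact u1.mono (by omega)
    · exact ul _ (X.l a) (2 * X.l a - X.l b) (hGe (by omega)) (by omega) (by omega)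
        ⟨by omega, Or.inr (Or.inl ⟨hMab, h1, by push_cast; exact e1.symm⟩)⟩ (by omega)
        ⟨by omega, Or.inr (Or.inr (Or.inl ⟨hMab, h1, rfl, h2, h3, rfl⟩))⟩ (by omega)

end Pool.Agent.Helper38.LE
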